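import Mathlib

set_option autoImplicit false

/-!
# Integer values of partizan games
-/

namespace Pool.Agent.Q271.LG

/-- `WinsSecond L R p`: the player whose moves are given by `L` wins the normal play game with the
moves `L`, `R` from the position `p` when the other player (whose moves are given by `R`) moves
first: to every move of the opponent there is a reply to a position of the same kind. -/
inductive WinsSecond {P : Type} (L R : P → P → Prop) : P → Prop
  | intro (p : P) (reply : P → P) (h1 : ∀ q, R p q → L q (reply q))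
      (h2 : ∀ q, R p q → WinsSecond L R (reply q)) : WinsSecond L R p

/-- a move in a disjunctive sum -/
def SumMove {P Q : Type} (M₁ : P → P → Prop) (M₂ : Q → Q → Prop) (a b : P × Q) : Prop :=
  (M₁ a.1 b.1 ∧ b.2 = a.2) ∨ (M₂ a.2 b.2 ∧ b.1 = a.1)

/-- Left's moves in the games that are integers: from `k > 0` to `k - 1` -/
def IntLeft (a b : ℤ) : Prop := 0 < a ∧ b = a - 1

/-- Right's moves in the games that are integers: from `k < 0` to `k + 1` -/
def IntRight (a b : ℤ) : Prop := a < 0 ∧ b = a + 1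

/-- The game with Left's moves `L` and Right's moves `R` has at the position `p` the value `N`: the
second player wins the sum of the game and the integer `-N`. -/
def HasValue {P : Type} (L R : P → P → Prop) (p : P) (N : ℤ) : Prop :=
  WinsSecond (SumMove L IntLeft) (SumMove R IntRight) (p, -N) ∧
  WinsSecond (SumMove R IntRight) (SumMove L IntLeft) (p, -N)

lemma winsSecond_iff {P : Type} (L R : P → P → Prop) (Inv : P → Prop) (rank : P → ℕ) (M : P → ℤ)
    (hL : ∀ p q, Inv p → L p q → Inv q ∧ rank q < rank p ∧ M q ≤ M p - 1)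
    (hR : ∀ p q, Inv p → R p q → Inv q ∧ rank q < rank p ∧ M p + 1 ≤ M q)
    (hL' : ∀ p, Inv p → 0 < M p → ∃ q, L p q ∧ M p - 1 ≤ M q)
    (hR' : ∀ p, Inv p → M p < 0 → ∃ q, R p q ∧ M q ≤ M p + 1) {p : P} (hp : Inv p) :
    WinsSecond L R p ↔ 0 ≤ M p := by
  classical
  constructor
  · intro h
    revert hp
    induction h with
    | intro p reply h1 h2 ih =>
      intro hp
      by_contra hlt
      push Not at hlt
      obtain ⟨q, hq, hMq⟩ := hR' p hp hlt
      have h3 := hR p q hp hq
      have h4 := hL q (reply q) h3.1 (h1 q hq)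
      have h5 := ih q hq h4.1
      omega
  · have key : ∀ n : ℕ, ∀ p, rank p ≤ n → Inv p → 0 ≤ M p → WinsSecond L R p := by
      intro n
      induction n with
      | zero =>
        intro p hn hp h0
        refine WinsSecond.intro p id ?_ ?_
        · intro q hq
          have := (hR p q hp hq).2.1
          omega
        · intro q hq
          have := (hR p q hp hq).2.1
          omega
      | succ n ih =>
        intro p hn hp h0
        have hrep : ∀ q, ∃ q', R p q → L q q' ∧ M q - 1 ≤ M q' := by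
          intro q
          by_cases hq : R p q
          · have h3 := hR p q hp hq
            obtain ⟨q', h4, h5⟩ := hL' q h3.1 (by omega)
            exact ⟨q', fun _ => ⟨h4, h5⟩⟩
          · exact ⟨q, fun h => absurd h hq⟩
        choose reply hreply using hrep
        refine WinsSecond.intro p reply (fun q hq => (hreply q hq).1) ?_
        intro q hq
        have h3 := hR p q hp hq
        have h4 := hreply q hq
        have h5 := hL q (reply q) h3.1 h4.1
        exact ih (reply q) (by omega) h5.1 (by omega)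
    exact key (rank p) p le_rfl hp

/-- A criterion for the value to be an integer. -/
theorem hasValue_iff {P : Type} (L R : P → P → Prop) (Inv : P → Prop) (rank : P → ℕ) (M : P → ℤ)
    (hL : ∀ p q, Inv p → L p q → Inv q ∧ rank q < rank p ∧ M q ≤ M p - 1)
    (hR : ∀ p q, Inv p → R p q → Inv q ∧ rank q < rank p ∧ M p + 1 ≤ M q)
    (hL' : ∀ p, Inv p → 0 < M p → ∃ q, L p q ∧ M p - 1 ≤ M q)
    (hR' : ∀ p, Inv p → M p < 0 → ∃ q, R p q ∧ M q ≤ M p + 1) {p : P} (hp : Inv p) (N : ℤ) :
    HasValue L R p N ↔ N = M p := by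
  have a1 : ∀ a b : P × ℤ, Inv a.1 → SumMove L IntLeft a b →
      Inv b.1 ∧ rank b.1 + b.2.natAbs < rank a.1 + a.2.natAbs ∧ M b.1 + b.2 ≤ M a.1 + a.2 - 1 := by
    rintro ⟨p, k⟩ ⟨q, l⟩ hp (⟨h1, h2⟩ | ⟨⟨h1, h2⟩, h3⟩)
    · simp only at h1 h2 hp ⊢
      have := hL p q hp h1
      subst h2
      exact ⟨this.1, by omega, by omega⟩
    · simp only at h1 h2 h3 hp ⊢
      subst h3
      exact ⟨hp, by omega, by omega⟩
  have a2 : ∀ a b : P × ℤ, Inv a.1 → SumMove R IntRight a b →
      Inv b.1 ∧ rank b.1 + b.2.natAbs < rank a.1 + a.2.natAbs ∧ M a.1 + a.2 + 1 ≤ M b.1 + b.2 := by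
    rintro ⟨p, k⟩ ⟨q, l⟩ hp (⟨h1, h2⟩ | ⟨⟨h1, h2⟩, h3⟩)
    · simp only at h1 h2 hp ⊢
      have := hR p q hp h1
      subst h2
      exact ⟨this.1, by omega, by omega⟩
    · simp only at h1 h2 h3 hp ⊢
      subst h3
      exact ⟨hp, by omega, by omega⟩
  have a3 : ∀ a : P × ℤ, Inv a.1 → 0 < M a.1 + a.2 →
      ∃ b, SumMove L IntLeft a b ∧ M a.1 + a.2 - 1 ≤ M b.1 + b.2 := by
    rintro ⟨p, k⟩ hp h
    simp only at hp h
    by_cases hk : 0 < k
    · refine ⟨(p, k - 1), Or.inr ⟨⟨hk, rfl⟩, rfl⟩, ?_⟩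
      simp only
      omega
    · obtain ⟨q, hq, hM⟩ := hL' p hp (by omega)
      refine ⟨(q, k), Or.inl ⟨hq, rfl⟩, ?_⟩
      simp only
      omega
  have a4 : ∀ a : P × ℤ, Inv a.1 → M a.1 + a.2 < 0 →
      ∃ b, SumMove R IntRight a b ∧ M b.1 + b.2 ≤ M a.1 + a.2 + 1 := by
    rintro ⟨p, k⟩ hp h
    simp only at hp h
    by_cases hk : k < 0
    · refine ⟨(p, k + 1), Or.inr ⟨⟨hk, rfl⟩, rfl⟩, ?_⟩
      simp only
      omega
    · obtain ⟨q, hq, hM⟩ := hR' p hp (by omega)
      refine ⟨(q, k), Or.inl ⟨hq, rfl⟩, ?_⟩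
      simp only
      omega
  have e1 := winsSecond_iff (SumMove L IntLeft) (SumMove R IntRight) (fun a => Inv a.1)
    (fun a => rank a.1 + a.2.natAbs) (fun a => M a.1 + a.2) a1 a2 a3 a4 (p := (p, -N)) hp
  have e2 := winsSecond_iff (SumMove R IntRight) (SumMove L IntLeft) (fun a => Inv a.1)
    (fun a => rank a.1 + a.2.natAbs) (fun a => -(M a.1 + a.2))
    (fun a b h1 h2 => by
      have := a2 a b h1 h2
      exact ⟨this.1, this.2.1, by linarith [this.2.2]⟩)
    (fun a b h1 h2 => by
      have := a1 a b h1 h2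
      exact ⟨this.1, this.2.1, by linarith [this.2.2]⟩)
    (fun a h1 h2 => by
      obtain ⟨b, h3, h4⟩ := a4 a h1 (by linarith)
      exact ⟨b, h3, by linarith⟩)
    (fun a h1 h2 => by
      obtain ⟨b, h3, h4⟩ := a3 a h1 (by linarith)
      exact ⟨b, h3, by linarith⟩) (p := (p, -N)) hp
  unfold HasValue
  rw [e1, e2]
  simp only
  constructor
  · rintro ⟨h1, h2⟩
    omega
  · rintro rfl
    omega

end Pool.Agent.Q271.LG
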