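import Pool.Agent.Q271.LG.Tree

set_option autoImplicit false

/-!
# The value of the leaf-removal game
-/

namespace Pool.Agent.Q271.LG

open Finset

variable {V : Type} [Fintype V] [DecidableEq V]

lemma mem_ess {T : SimpleGraph V} {c : V → Bool} {S : Finset V} {x : V} :
    x ∈ ess T c S ↔ x ∈ S ∧ Ess (sub T S) c x := by
  classical
  unfold ess
  simp only [mem_filter]

/-- number of essential vertices of colour `k` minus the number of the others -/
noncomputable def dd (T : SimpleGraph V) (c : V → Bool) (k : Bool) (S : Finset V) : ℤ :=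
  (((ess T c S).filter (fun x => c x = k)).card : ℤ) -
    ((ess T c S).filter (fun x => c x ≠ k)).card

lemma dd_not (T : SimpleGraph V) (c : V → Bool) (k : Bool) (S : Finset V) :
    dd T c (!k) S = - dd T c k S := by
  unfold dd
  have h1 : ∀ x, c x = !k ↔ c x ≠ k := by
    intro x
    cases c x <;> cases k <;> simp
  have h2 : ∀ x, c x ≠ !k ↔ c x = k := by
    intro x
    cases c x <;> cases k <;> simp
  simp only [h1, h2]
  ring

variable {T : SimpleGraph V} {c : V → Bool} {S : Finset V}

/-- a leaf is alone or has a neighbour -/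
lemma leaf_cases (hT : T.IsTree) (hS : Conv T S) {l : V} (hl : IsLeaf T S l) :
    S = {l} ∨ ∃ v, (sub T S).Adj l v := by
  by_cases h : S = {l}
  · exact Or.inl h
  · right
    have : ∃ r ∈ S, r ≠ l := by
      by_contra hne
      push Not at hne
      apply h
      ext x
      rw [mem_singleton]
      exact ⟨fun hx => hne x hx, fun hx => hx ▸ hl.1⟩
    obtain ⟨r, hr, hrl⟩ := this
    obtain ⟨y, hy, hd⟩ := exists_closer hT hrl.symm
    exact ⟨y, hy, hl.1, hS r hr l hl.1 y hy hd⟩

lemma ess_erase {l : V} : ess T c (S.erase l) = (ess T c S).erase l ∪ gained T c S l := by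
  ext x
  rw [mem_union, mem_erase, mem_ess, mem_ess, mem_gained, mem_erase]
  constructor
  · rintro ⟨⟨h1, h2⟩, h3⟩
    by_cases h4 : Ess (sub T S) c x
    · exact Or.inl ⟨h1, h2, h4⟩
    · exact Or.inr ⟨⟨h1, h2⟩, h4, h3⟩
  · rintro (⟨h1, h2, h3⟩ | ⟨⟨h1, h2⟩, h3, h4⟩)
    · exact ⟨⟨h1, h2⟩, h3.erase⟩
    · exact ⟨⟨h1, h2⟩, h4⟩

lemma dd_erase {l : V} (hl : IsLeaf T S l) : dd T c (c l) (S.erase l) = dd T c (c l) S - 1 +
    (((gained T c S l).filter (fun x => c x = c l)).card : ℤ) -
      ((gained T c S l).filter (fun x => c x ≠ c l)).card := by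
  have hdis : Disjoint ((ess T c S).erase l) (gained T c S l) := by
    rw [disjoint_left]
    intro x h1 h2
    exact (mem_gained.mp h2).2.1 (mem_ess.mp (mem_of_mem_erase h1)).2
  have hle : l ∈ ess T c S := mem_ess.mpr ⟨hl.1, leaf_ess hl⟩
  unfold dd
  rw [ess_erase, filter_union, filter_union, card_union_of_disjoint, card_union_of_disjoint]
  · have e1 : ((ess T c S).erase l).filter (fun x => c x = c l) =
        ((ess T c S).filter (fun x => c x = c l)).erase l := by
      ext x
      simp only [mem_filter, mem_erase]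
      tauto
    have e2 : ((ess T c S).erase l).filter (fun x => c x ≠ c l) =
        (ess T c S).filter (fun x => c x ≠ c l) := by
      ext x
      simp only [mem_filter, mem_erase]
      constructor
      · rintro ⟨⟨_, h⟩, h2⟩
        exact ⟨h, h2⟩
      · rintro ⟨h, h2⟩
        exact ⟨⟨fun h3 => h2 (h3 ▸ rfl), h⟩, h2⟩
    have e3 : l ∈ (ess T c S).filter (fun x => c x = c l) := mem_filter.mpr ⟨hle, rfl⟩
    have e4 : 1 ≤ ((ess T c S).filter (fun x => c x = c l)).card := card_pos.mpr ⟨l, e3⟩
    rw [e1, e2, card_erase_of_mem e3]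
    push_cast [Nat.cast_sub e4]
    ring
  · exact disjoint_filter_filter hdis
  · exact disjoint_filter_filter hdis

/-- gained vertices exist only if the leaf has a neighbour -/
lemma gained_alone {l : V} (h : S = {l}) : gained T c S l = ∅ := by
  rw [eq_empty_iff_forall_notMem]
  intro x hx
  have := (mem_gained.mp hx).1
  rw [h, mem_singleton] at this
  exact this.1 this.2

/-- Removing a leaf decreases the difference for its colour. -/
lemma dd_erase_le (hT : T.IsTree) (hS : Conv T S) {l : V} (hl : IsLeaf T S l) :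
    dd T c (c l) (S.erase l) ≤ dd T c (c l) S - 1 := by
  rw [dd_erase hl]
  rcases leaf_cases hT hS hl with h | ⟨v, hv⟩
  · rw [gained_alone h]
    simp
  · have := gained_card (c := c) hT hl hv
    have : (((gained T c S l).filter (fun x => c x = c l)).card : ℤ) ≤
      ((gained T c S l).filter (fun x => c x ≠ c l)).card := by exact_mod_cast this
    linarith

/-! ### Good leaves -/

section good

variable {k : Bool}
  (hbad : ∀ l, IsLeaf T S l → c l = k → (gained T c S l).Nonempty)
include hbad

/-- the structure at a bad leaf -/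
lemma bad_leaf (hT : T.IsTree) (hS : Conv T S) {l : V} (hl : IsLeaf T S l) (hlk : c l = k) :
    ∃ v, (sub T S).Adj l v ∧ c v ≠ k ∧ Ess (sub T S) c v ∧
      ∀ w, (sub T S).Adj v w → c w = k → w = l := by
  obtain ⟨x, hx⟩ := hbad l hl hlk
  rcases leaf_cases hT hS hl with h | ⟨v, hv⟩
  · rw [gained_alone h] at hx
    exact absurd hx (notMem_empty _)
  obtain ⟨y, y', hy, hyy, hb⟩ := gained_struct hT hl hv hx
  have hcv : c v ≠ k := by
    rw [← hlk]
    exact hy.ne.symm
  obtain ⟨u, hu1, hu2, hu3, hu4⟩ := hy.last (Blk.step hy.adj.symm hb.adj hyy hb)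
  have hvl : v ≠ l := (mem_erase.mp hu1.2.1).1
  refine ⟨v, hv, hcv, ?_, ?_⟩
  · have key : ∀ w, Blk (sub T S) c v w → w = u := by
      intro w hw
      have hwl : w ≠ l := by
        rintro rfl
        exact not_blk_leaf hl hw
      rcases lost_of_blk hl hv hvl hw with h | h
      · by_contra hne
        exact hu3 (Blk.step hu1.symm h.adj hne h)
      · exfalso
        have h1 := h.closer hT hv
        have h2 : T.dist l v = 1 := SimpleGraph.dist_eq_one_iff_adj.mpr hv.1
        have h3 : T.dist l w = 0 := by omega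
        exact hwl (hT.connected.dist_eq_zero_iff.mp h3).symm
    intro a b ha hb'
    rw [key a ha, key b hb']
  · intro w hw hwk
    by_contra hwl
    have hwu : w ≠ u := by
      rintro rfl
      exact hcv (hu2 ▸ hwk)
    apply hu3
    refine Blk.base hu1.symm ⟨hw.1, mem_erase.mpr ⟨hvl, hw.2.1⟩, mem_erase.mpr ⟨hwl, hw.2.2⟩⟩
      hwu hu2 ?_
    rw [hwk]
    exact hcv.symm

lemma dist_lt_card (hT : T.IsTree) (x y : V) : T.dist x y < Fintype.card V := by
  obtain ⟨p, hp, hp'⟩ := hT.connected.exists_path_of_dist x y
  rw [← hp']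
  exact hp.length_lt

/-- a non-leaf has a second neighbour -/
lemma exists_other {x a : V} (hx : x ∈ S) (hl : ¬ IsLeaf T S x) :
    ∃ w, (sub T S).Adj x w ∧ w ≠ a := by
  unfold IsLeaf at hl
  push Not at hl
  obtain ⟨y, z, hy, hz, hyz⟩ := hl hx
  by_cases h : y = a
  · exact ⟨z, hz, fun h' => hyz (h.trans h'.symm)⟩
  · exact ⟨y, hy, h⟩

/-- adjacent vertices of colour `k` block each other -/
lemma same_blk (hT : T.IsTree) (hS : Conv T S) {x y : V} (hxy : (sub T S).Adj x y)
    (hx : c x = k) (hy : c y = k) : Blk (sub T S) c x y := by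
  have key : ∀ (n : ℕ) (a b : V), (sub T S).Adj a b → c a = k → c b = k →
      T.dist x b = T.dist x a + 1 → Fintype.card V ≤ T.dist x b + n → Blk (sub T S) c a b := by
    intro n
    induction n with
    | zero =>
      intro a b _ _ _ _ h
      have := dist_lt_card hbad hT x b
      omega
    | succ n ih =>
      intro a b hab ha hb hd hn
      have hnl : ¬ IsLeaf T S b := by
        intro hl
        obtain ⟨v, h1, h2, -⟩ := bad_leaf hbad hT hS hl hb
        have : a = v := hl.2 _ _ hab.symm h1
        subst this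
        exact h2 ha
      obtain ⟨w, hw, hwa⟩ := exists_other hbad (a := a) hab.2.2 hnl
      by_cases hcw : c w = k
      · have h1 := farther hT hab.1.symm hw.1 (Ne.symm hwa) hd
        exact Blk.step hab hw hwa (ih b w hw hb hcw h1 (by omega))
      · exact Blk.base hab hw hwa (ha.trans hb.symm) (by rw [hb]; exact hcw)
  refine key (Fintype.card V) x y hxy hx hy ?_ (by omega)
  rw [SimpleGraph.dist_self, SimpleGraph.dist_eq_one_iff_adj.mpr hxy.1]

/-- if all leaves of colour `k` are bad, then the difference is not positive -/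
lemma dd_nonpos (hT : T.IsTree) (hS : Conv T S) : dd T c k S ≤ 0 := by
  classical
  have main : ∃ f : V → V, (∀ x ∈ (ess T c S).filter (fun x => c x = k),
      f x ∈ (ess T c S).filter (fun x => c x ≠ k)) ∧
      Set.InjOn f ((ess T c S).filter (fun x => c x = k)) := by
    by_cases hZ : ∃ z ∈ S, ∀ w, ¬ Blk (sub T S) c z w
    · obtain ⟨z, hz, hzw⟩ := hZ
      -- nothing is blocked in the directions away from `z`
      have away : ∀ (n : ℕ) (x y : V), T.dist z x = n → (sub T S).Adj x y →
          T.dist z y = T.dist z x + 1 → ¬ Blk (sub T S) c x y := by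
        intro n
        induction n with
        | zero =>
          intro x y h0 _ _ hb
          have : z = x := hT.connected.dist_eq_zero_iff.mp h0
          subst this
          exact hzw y hb
        | succ n ih =>
          intro x y hn hxy hd hb
          have hxz : x ≠ z := by
            rintro rfl
            rw [SimpleGraph.dist_self] at hn
            omega
          obtain ⟨p, hp, hpd⟩ := exists_closer hT hxz
          have hpS : p ∈ S := hS z hz x hxy.2.1 p hp hpd
          have hyp : y ≠ p := by
            rintro rfl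
            omega
          exact ih p x (by omega) ⟨hp.symm, hpS, hxy.2.1⟩ hpd
            (Blk.step ⟨hp.symm, hpS, hxy.2.1⟩ hxy hyp hb)
      have hess : ∀ x ∈ S, Ess (sub T S) c x := by
        intro x hx a b ha hb
        rcases hT.dist_eq_dist_add_one_of_adj z ha.adj.1 with h1 | h1
        · rcases hT.dist_eq_dist_add_one_of_adj z hb.adj.1 with h2 | h2
          · exact closer_unique hT ha.adj.1 hb.adj.1 h1 h2
          · exact absurd hb (away _ x b rfl hb.adj h2)
        · exact absurd ha (away _ x a rfl ha.adj h1)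
      have hex : ∀ x, x ∈ (ess T c S).filter (fun x => c x = k) →
          ∃ y, (sub T S).Adj x y ∧ T.dist z y = T.dist z x + 1 := by
        intro x hx
        rw [mem_filter, mem_ess] at hx
        have hnl : ¬ IsLeaf T S x := by
          intro hl
          obtain ⟨g, hg⟩ := hbad x hl hx.2
          rw [mem_gained] at hg
          exact hg.2.1 (hess g hg.1.2)
        unfold IsLeaf at hnl
        push Not at hnl
        obtain ⟨a, b, ha, hb, hab⟩ := hnl hx.1.1
        rcases hT.dist_eq_dist_add_one_of_adj z ha.1 with h1 | h1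
        · exact ⟨b, hb, farther hT ha.1 hb.1 hab h1⟩
        · exact ⟨a, ha, h1⟩
      choose! f hf1 hf2 using hex
      refine ⟨f, ?_, ?_⟩
      · intro x hx
        rw [mem_filter, mem_ess]
        refine ⟨⟨(hf1 x hx).2.2, hess _ (hf1 x hx).2.2⟩, ?_⟩
        intro h
        exact away _ x (f x) rfl (hf1 x hx) (hf2 x hx)
          (same_blk hbad hT hS (hf1 x hx) (mem_filter.mp hx).2 h)
      · intro a ha b hb hab
        have h1 := hf1 a ha
        have h2 := hf1 b hb
        have h3 := hf2 a ha
        have h4 := hf2 b hb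
        rw [← hab] at h2 h4
        exact closer_unique hT h1.1.symm h2.1.symm h3 h4
    · push Not at hZ
      have hex : ∀ x, x ∈ (ess T c S).filter (fun x => c x = k) →
          ∃ y, (sub T S).Adj x y ∧ c y ≠ k ∧ y ∈ ess T c S ∧
            ((∀ w, (sub T S).Adj y w → c w = k → w = x) ∨ Blk (sub T S) c y x) := by
        intro x hx
        rw [mem_filter, mem_ess] at hx
        obtain ⟨⟨hxS, hxe⟩, hxk⟩ := hx
        by_cases hl : IsLeaf T S x
        · obtain ⟨v, h1, h2, h3, h4⟩ := bad_leaf hbad hT hS hl hxk
          exact ⟨v, h1, h2, mem_ess.mpr ⟨h1.2.2, h3⟩, Or.inl h4⟩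
        · obtain ⟨p, hp⟩ := hZ x hxS
          obtain ⟨y, hy, hyp⟩ := exists_other hbad (a := p) hxS hl
          have hny : ¬ Blk (sub T S) c x y := fun h => hyp (hxe _ _ h hp)
          refine ⟨y, hy, fun h => hny (same_blk hbad hT hS hy hxk h), ?_,
            Or.inr (Blk.step hy.symm hp.adj (Ne.symm hyp) hp)⟩
          rw [mem_ess]
          refine ⟨hy.2.2, ?_⟩
          have key : ∀ w, Blk (sub T S) c y w → w = x := by
            intro w hw
            by_contra hne
            exact hny (Blk.step hy hw.adj hne hw)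
          intro a b ha hb
          rw [key a ha, key b hb]
      choose! f hf1 hf2 hf3 hf4 using hex
      refine ⟨f, fun x hx => mem_filter.mpr ⟨hf3 x hx, hf2 x hx⟩, ?_⟩
      intro a ha b hb hab
      have ha' := (mem_filter.mp ha).2
      have hb' := (mem_filter.mp hb).2
      rcases hf4 a ha with h1 | h1
      · have h2 := (hf1 b hb).symm
        rw [← hab] at h2
        exact (h1 b h2 hb').symm
      · rcases hf4 b hb with h2 | h2
        · have h3 := (hf1 a ha).symm
          rw [hab] at h3
          exact h2 a h3 ha'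
        · rw [← hab] at h2
          exact (mem_ess.mp (hf3 a ha)).2 _ _ h1 h2
  obtain ⟨f, hf1, hf2⟩ := main
  have := card_le_card_of_injOn f hf1 hf2
  unfold dd
  omega

end good

/-- If the difference is positive, there is a leaf of the colour whose removal decreases it by at
most one. -/
lemma exists_good_leaf (hT : T.IsTree) (hS : Conv T S) {k : Bool} (h : 0 < dd T c k S) :
    ∃ l, IsLeaf T S l ∧ c l = k ∧ dd T c k S - 1 ≤ dd T c k (S.erase l) := by
  by_contra hne
  push Not at hne
  have hbad : ∀ l, IsLeaf T S l → c l = k → (gained T c S l).Nonempty := by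
    intro l hl hlk
    have h1 := hne l hl hlk
    subst hlk
    rw [dd_erase hl] at h1
    by_contra hg
    rw [not_nonempty_iff_eq_empty] at hg
    rw [hg] at h1
    simp at h1
  have := dd_nonpos hbad hT hS
  omega

/-! ### The game -/

/-- `l` is a leaf of the tree on the remaining vertices `S`: it is in `S` and has at most one
neighbour in `S`. -/
def Leaf (T : SimpleGraph V) (S : Finset V) (l : V) : Prop :=
  l ∈ S ∧ ∀ x ∈ S, ∀ y ∈ S, T.Adj l x → T.Adj l y → x = y

lemma leaf_iff {l : V} : Leaf T S l ↔ IsLeaf T S l := by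
  constructor
  · rintro ⟨h1, h2⟩
    exact ⟨h1, fun x y hx hy => h2 x hx.2.2 y hy.2.2 hx.1 hy.1⟩
  · rintro ⟨h1, h2⟩
    exact ⟨h1, fun x hx y hy hlx hly => h2 x y ⟨hlx, h1, hx⟩ ⟨hly, h1, hy⟩⟩

/-- The moves of the player with the colour `k`: the deletion of a leaf of colour `k`. -/
def Move (T : SimpleGraph V) (c : V → Bool) (k : Bool) (S S' : Finset V) : Prop :=
  ∃ l, Leaf T S l ∧ c l = k ∧ S' = S.erase l

theorem value (hT : T.IsTree) (c : V → Bool) (N : ℤ) :
    HasValue (Move T c true) (Move T c false) univ N ↔ N = dd T c true univ := by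
  have hdf : ∀ S, dd T c false S = - dd T c true S := fun S => dd_not T c true S
  refine hasValue_iff (Move T c true) (Move T c false) (Conv T) card (fun S => dd T c true S)
    ?_ ?_ ?_ ?_ (conv_univ T) N
  · rintro S S' hS ⟨l, hl, hc, rfl⟩
    rw [leaf_iff] at hl
    refine ⟨hS.erase hT hl, card_erase_lt_of_mem hl.1, ?_⟩
    have := dd_erase_le (c := c) hT hS hl
    rw [hc] at this
    exact this
  · rintro S S' hS ⟨l, hl, hc, rfl⟩
    rw [leaf_iff] at hl
    refine ⟨hS.erase hT hl, card_erase_lt_of_mem hl.1, ?_⟩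
    have := dd_erase_le (c := c) hT hS hl
    rw [hc, hdf, hdf] at this
    linarith
  · intro S hS h
    obtain ⟨l, hl, hc, hd⟩ := exists_good_leaf hT hS h
    exact ⟨S.erase l, ⟨l, leaf_iff.mpr hl, hc, rfl⟩, hd⟩
  · intro S hS h
    obtain ⟨l, hl, hc, hd⟩ := exists_good_leaf (k := false) hT hS (by rw [hdf]; linarith)
    rw [hdf, hdf] at hd
    exact ⟨S.erase l, ⟨l, leaf_iff.mpr hl, hc, rfl⟩, by linarith⟩

open Classical in
/-- The number of essential vertices of the colour `k`. -/
noncomputable def essCard (T : SimpleGraph V) (c : V → Bool) (k : Bool) : ℕ :=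
  (univ.filter (fun x => Ess T c x ∧ c x = k)).card

lemma dd_univ (T : SimpleGraph V) (c : V → Bool) :
    dd T c true univ = (essCard T c true : ℤ) - essCard T c false := by
  classical
  unfold dd essCard ess
  rw [sub_univ, filter_filter, filter_filter]
  congr 3
  ext x
  simp

end Pool.Agent.Q271.LG
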