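import Pool.Agent.Q271.LG.Game

set_option autoImplicit false

/-!
# The essential vertices of a coloured tree
-/

namespace Pool.Agent.Q271.LG

open Finset

variable {V : Type} [Fintype V] [DecidableEq V]

/-- The neighbour `y` blocks `x`: there is a walk `x, y, …, u, v, z` without immediate returns (in a
tree: a path), with at least three vertices, such that `c u = c v ≠ c z`. -/
inductive Blk (G : SimpleGraph V) (c : V → Bool) : V → V → Prop
  | base {x y z : V} : G.Adj x y → G.Adj y z → z ≠ x → c x = c y → c z ≠ c y → Blk G c x y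
  | step {x y z : V} : G.Adj x y → G.Adj y z → z ≠ x → Blk G c y z → Blk G c x y

/-- the subgraph on the vertex set `S` -/
def sub (T : SimpleGraph V) (S : Finset V) : SimpleGraph V where
  Adj a b := T.Adj a b ∧ a ∈ S ∧ b ∈ S
  symm := ⟨fun a b h => ⟨h.1.symm, h.2.2, h.2.1⟩⟩
  loopless := ⟨fun a h => T.loopless.irrefl a h.1⟩

lemma sub_univ (T : SimpleGraph V) : sub T univ = T := by
  ext a b
  simp [sub]

lemma Blk.adj {G : SimpleGraph V} {c : V → Bool} {x y : V} (h : Blk G c x y) : G.Adj x y := by
  cases h <;> assumption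

lemma Blk.mono {G G' : SimpleGraph V} (hG : G ≤ G') {c : V → Bool} {x y : V} (h : Blk G c x y) :
    Blk G' c x y := by
  induction h with
  | base h1 h2 h3 h4 h5 => exact Blk.base (hG h1) (hG h2) h3 h4 h5
  | step h1 h2 h3 _ ih => exact Blk.step (hG h1) (hG h2) h3 ih

/-! ### Distances in trees -/

section tree

variable {T : SimpleGraph V} (hT : T.IsTree)
include hT

lemma closer_unique {r x y z : V} (hxy : T.Adj x y) (hxz : T.Adj x z)
    (hy : T.dist r x = T.dist r y + 1) (hz : T.dist r x = T.dist r z + 1) : y = z := by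
  obtain ⟨p, hp, hp'⟩ := hT.connected.exists_path_of_dist r y
  obtain ⟨q, hq, hq'⟩ := hT.connected.exists_path_of_dist r z
  have h1 : (p.concat hxy.symm).IsPath := by
    apply SimpleGraph.Walk.isPath_of_length_eq_dist
    rw [SimpleGraph.Walk.length_concat, hp', hy]
  have h2 : (q.concat hxz.symm).IsPath := by
    apply SimpleGraph.Walk.isPath_of_length_eq_dist
    rw [SimpleGraph.Walk.length_concat, hq', hz]
  have h3 := (hT.isAcyclic.subsingleton_path r x).elim ⟨_, h1⟩ ⟨_, h2⟩
  have h4 := congrArg (fun w : T.Path r x => w.1.penultimate) h3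
  simpa using h4

lemma farther {r x y z : V} (hxy : T.Adj x y) (hxz : T.Adj x z) (hyz : y ≠ z)
    (hy : T.dist r x = T.dist r y + 1) : T.dist r z = T.dist r x + 1 := by
  rcases hT.dist_eq_dist_add_one_of_adj r hxz with h | h
  · exact absurd (closer_unique hT hxy hxz hy h) hyz
  · exact h

lemma exists_closer {r x : V} (h : x ≠ r) : ∃ y, T.Adj x y ∧ T.dist r x = T.dist r y + 1 := by
  obtain ⟨p, hp, hp'⟩ := hT.connected.exists_path_of_dist x r
  cases p with
  | nil => exact absurd rfl h
  | @cons _ y _ hxy p =>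
    refine ⟨y, hxy, ?_⟩
    rw [SimpleGraph.Walk.length_cons] at hp'
    have h1 : T.dist y r ≤ p.length := T.dist_le p
    rcases hT.dist_eq_dist_add_one_of_adj r hxy with h2 | h2
    · exact h2
    · rw [SimpleGraph.dist_comm (u := y) (v := r)] at h1
      rw [SimpleGraph.dist_comm (u := x) (v := r)] at hp'
      omega

end tree

/-- `S` is closed under passing to the next vertex on the way to another vertex of `S` -/
def Conv (T : SimpleGraph V) (S : Finset V) : Prop :=
  ∀ r ∈ S, ∀ x ∈ S, ∀ y, T.Adj x y → T.dist r x = T.dist r y + 1 → y ∈ S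

/-- leaves -/
def IsLeaf (T : SimpleGraph V) (S : Finset V) (l : V) : Prop :=
  l ∈ S ∧ ∀ x y, (sub T S).Adj l x → (sub T S).Adj l y → x = y

lemma Conv.erase {T : SimpleGraph V} (hT : T.IsTree) {S : Finset V} (hS : Conv T S) {l : V}
    (hl : IsLeaf T S l) : Conv T (S.erase l) := by
  intro r hr x hx y hxy hd
  rw [mem_erase] at hr hx ⊢
  refine ⟨?_, hS r hr.2 x hx.2 y hxy hd⟩
  rintro rfl
  have hy : y ∈ S := hl.1
  obtain ⟨z, hyz, hd2⟩ := exists_closer hT (Ne.symm hr.1)
  have hz : z ∈ S := hS r hr.2 y hy z hyz hd2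
  have := hl.2 x z ⟨hxy.symm, hy, hx.2⟩ ⟨hyz, hy, hz⟩
  subst this
  omega

lemma conv_univ (T : SimpleGraph V) : Conv T univ := fun _ _ _ _ _ _ _ => mem_univ _

/-! ### Essential vertices -/

/-- A vertex is essential if at most one neighbour blocks it. -/
def Ess (G : SimpleGraph V) (c : V → Bool) (x : V) : Prop :=
  ∀ y z, Blk G c x y → Blk G c x z → y = z

open Classical in
/-- the essential vertices in `S` -/
noncomputable def ess (T : SimpleGraph V) (c : V → Bool) (S : Finset V) : Finset V :=
  S.filter (fun x => Ess (sub T S) c x)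

/-- a leaf is essential -/
lemma leaf_ess {T : SimpleGraph V} {c : V → Bool} {S : Finset V} {l : V} (hl : IsLeaf T S l) :
    Ess (sub T S) c l := fun _ _ h1 h2 => hl.2 _ _ h1.adj h2.adj

lemma sub_erase_le (T : SimpleGraph V) (S : Finset V) (l : V) : sub T (S.erase l) ≤ sub T S := by
  intro a b h
  exact ⟨h.1, mem_of_mem_erase h.2.1, mem_of_mem_erase h.2.2⟩

/-- essential vertices remain essential -/
lemma Ess.erase {T : SimpleGraph V} {c : V → Bool} {S : Finset V} {l x : V}
    (h : Ess (sub T S) c x) : Ess (sub T (S.erase l)) c x :=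
  fun y z h1 h2 => h y z (h1.mono (sub_erase_le T S l)) (h2.mono (sub_erase_le T S l))

/-- The blocks lost by the removal of the leaf `l` with the neighbour `v`. -/
inductive Lost (T : SimpleGraph V) (c : V → Bool) (S : Finset V) (l v : V) : V → V → Prop
  | base {x : V} : (sub T (S.erase l)).Adj x v → c x = c v → c l ≠ c v →
      ¬ Blk (sub T (S.erase l)) c x v → Lost T c S l v x v
  | step {x y z : V} : (sub T (S.erase l)).Adj x y → (sub T (S.erase l)).Adj y z → z ≠ x →
      Lost T c S l v y z → ¬ Blk (sub T (S.erase l)) c x y → Lost T c S l v x y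

lemma Lost.adj {T : SimpleGraph V} {c : V → Bool} {S : Finset V} {l v x y : V}
    (h : Lost T c S l v x y) : (sub T (S.erase l)).Adj x y := by
  cases h <;> assumption

lemma Lost.not_blk {T : SimpleGraph V} {c : V → Bool} {S : Finset V} {l v x y : V}
    (h : Lost T c S l v x y) : ¬ Blk (sub T (S.erase l)) c x y := by
  cases h <;> assumption

lemma Lost.ne {T : SimpleGraph V} {c : V → Bool} {S : Finset V} {l v x y : V}
    (h : Lost T c S l v x y) : c l ≠ c v := by
  induction h with
  | base _ _ h _ => exact h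
  | step _ _ _ _ _ ih => exact ih

section leaf

variable {T : SimpleGraph V} {c : V → Bool} {S : Finset V} {l v : V}

/-- nothing is blocked through a leaf -/
lemma not_blk_leaf (hl : IsLeaf T S l) {x : V} : ¬ Blk (sub T S) c x l := by
  intro h
  cases h with
  | base h1 h2 h3 _ _ => exact h3 (hl.2 _ _ h2 h1.symm)
  | step h1 h2 h3 _ => exact h3 (hl.2 _ _ h2 h1.symm)

lemma lost_of_blk (hl : IsLeaf T S l) (hv : (sub T S).Adj l v) {x y : V} (hxl : x ≠ l)
    (h : Blk (sub T S) c x y) : Blk (sub T (S.erase l)) c x y ∨ Lost T c S l v x y := by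
  have adj' : ∀ {a b : V}, a ≠ l → b ≠ l → (sub T S).Adj a b → (sub T (S.erase l)).Adj a b :=
    fun ha hb h => ⟨h.1, mem_erase.mpr ⟨ha, h.2.1⟩, mem_erase.mpr ⟨hb, h.2.2⟩⟩
  induction h with
  | @base x y z h1 h2 h3 h4 h5 =>
    have hyl : y ≠ l := by
      rintro rfl
      exact h3 (hl.2 _ _ h2 h1.symm)
    by_cases hzl : z = l
    · subst hzl
      have hyv : y = v := hl.2 _ _ h2.symm hv
      subst hyv
      by_cases hb : Blk (sub T (S.erase z)) c x y
      · exact Or.inl hb
      · exact Or.inr (Lost.base (adj' hxl hyl h1) h4 h5 hb)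
    · exact Or.inl (Blk.base (adj' hxl hyl h1) (adj' hyl hzl h2) h3 h4 h5)
  | @step x y z h1 h2 h3 h4 ih =>
    have hyl : y ≠ l := by
      rintro rfl
      exact h3 (hl.2 _ _ h2 h1.symm)
    have hzl : z ≠ l := by
      rintro rfl
      exact not_blk_leaf hl h4
    by_cases hb : Blk (sub T (S.erase l)) c x y
    · exact Or.inl hb
    · rcases ih hyl with h | h
      · exact absurd (Blk.step (adj' hxl hyl h1) (adj' hyl hzl h2) h3 h) hb
      · exact Or.inr (Lost.step (adj' hxl hyl h1) (adj' hyl hzl h2) h3 h hb)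

/-- the lost direction is the direction to `l` -/
lemma Lost.closer (hT : T.IsTree) (hv : (sub T S).Adj l v) {x y : V} (h : Lost T c S l v x y) :
    T.dist l x = T.dist l y + 1 := by
  induction h with
  | @base x h1 _ _ _ =>
    have hx : l ≠ x := (mem_erase.mp h1.2.1).1.symm
    have hd : T.dist l v = T.dist l l + 1 := by
      rw [SimpleGraph.dist_self, SimpleGraph.dist_eq_one_iff_adj.mpr hv.1]
    exact farther hT hv.1.symm h1.1.symm hx hd
  | @step x y z h1 h2 h3 _ _ ih =>
    exact farther hT h2.1 h1.1.symm h3 ih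

lemma Lost.unique (hT : T.IsTree) (hv : (sub T S).Adj l v) {x y z : V} (h : Lost T c S l v x y)
    (h' : Lost T c S l v x z) : y = z :=
  closer_unique hT h.adj.1 h'.adj.1 (h.closer hT hv) (h'.closer hT hv)

/-- the colours along a lost direction -/
lemma Lost.color {x y : V} (h : Lost T c S l v x y) : ¬ (c x = c l ∧ c y = c l) := by
  induction h with
  | base _ _ h3 _ =>
    rintro ⟨_, h⟩
    exact h3 h.symm
  | @step x y z h1 h2 h3 _ h5 ih =>
    rintro ⟨h6, h7⟩
    apply ih
    refine ⟨h7, ?_⟩
    by_contra h8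
    apply h5
    refine Blk.base h1 h2 h3 (h6.trans h7.symm) ?_
    rw [h7]
    exact h8

/-- at the end of a lost direction -/
lemma Lost.last {x y : V} (h : Lost T c S l v x y)
    (hb : Blk (sub T (S.erase l)) c y x) : ∃ u, (sub T (S.erase l)).Adj v u ∧ c u = c v ∧
      ¬ Blk (sub T (S.erase l)) c u v ∧ Blk (sub T (S.erase l)) c v u := by
  induction h with
  | @base x h1 h2 _ h4 => exact ⟨x, h1.symm, h2, h4, hb⟩
  | @step x y z h1 h2 h3 _ _ ih =>
    exact ih (Blk.step h2.symm h1.symm (Ne.symm h3) hb)

open Classical in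
/-- the vertices that become essential -/
noncomputable def gained (T : SimpleGraph V) (c : V → Bool) (S : Finset V) (l : V) : Finset V :=
  (S.erase l).filter (fun x => ¬ Ess (sub T S) c x ∧ Ess (sub T (S.erase l)) c x)

lemma mem_gained {x : V} : x ∈ gained T c S l ↔
    (x ≠ l ∧ x ∈ S) ∧ ¬ Ess (sub T S) c x ∧ Ess (sub T (S.erase l)) c x := by
  classical
  unfold gained
  simp only [mem_filter, mem_erase]

/-- a gained vertex has a lost direction and one other blocked direction -/
lemma gained_struct (hT : T.IsTree) (hl : IsLeaf T S l) (hv : (sub T S).Adj l v) {x : V}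
    (hx : x ∈ gained T c S l) : ∃ y y', Lost T c S l v x y ∧ y' ≠ y ∧
      Blk (sub T (S.erase l)) c x y' := by
  rw [mem_gained] at hx
  obtain ⟨⟨hxl, hxS⟩, h1, h2⟩ := hx
  unfold Ess at h1
  push Not at h1
  obtain ⟨y, z, hy, hz, hyz⟩ := h1
  rcases lost_of_blk hl hv hxl hy with hy | hy <;> rcases lost_of_blk hl hv hxl hz with hz | hz
  · exact absurd (h2 y z hy hz) hyz
  · exact ⟨z, y, hz, hyz, hy⟩
  · exact ⟨y, z, hy, hyz.symm, hz⟩
  · exact absurd (hy.unique hT hv hz) hyz

/-- among the gained vertices, at most half have the colour of the leaf -/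
lemma gained_card (hT : T.IsTree) (hl : IsLeaf T S l) (hv : (sub T S).Adj l v) :
    ((gained T c S l).filter (fun x => c x = c l)).card ≤
      ((gained T c S l).filter (fun x => c x ≠ c l)).card := by
  classical
  have key : ∀ x ∈ (gained T c S l).filter (fun x => c x = c l),
      ∃ y, (y ∈ (gained T c S l).filter (fun x => c x ≠ c l)) ∧ Lost T c S l v x y ∧
        Blk (sub T (S.erase l)) c y x := by
    intro x hx
    rw [mem_filter] at hx
    obtain ⟨hx, hcx⟩ := hx
    obtain ⟨y, y', hy, hyy, hb⟩ := gained_struct hT hl hv hx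
    have hcy : c y ≠ c l := fun h => hy.color ⟨hcx, h⟩
    have hyx : Blk (sub T (S.erase l)) c y x := Blk.step hy.adj.symm hb.adj hyy hb
    refine ⟨y, ?_, hy, hyx⟩
    rw [mem_filter, mem_gained]
    refine ⟨⟨mem_erase.mp hy.adj.2.2, ?_, ?_⟩, hcy⟩
    · -- `y` has two blocked neighbours in `S`
      intro hess
      have h1 : Blk (sub T S) c y x := hyx.mono (sub_erase_le T S l)
      cases hy with
      | base _ h2 h3 _ => exact h3 (hcx.symm.trans h2)
      | @step _ _ z h2 h3 h4 h5 h6 =>
        have h7 : Blk (sub T S) c y z := by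
          clear h6 h4 h2 h1 hess hyx hcy
          have : ∀ a b, Lost T c S l v a b → Blk (sub T S) c a b := by
            intro a b hab
            induction hab with
            | @base a k1 k2 k3 _ =>
              exact Blk.base (sub_erase_le T S l k1) hv.symm
                (mem_erase.mp k1.2.1).1.symm k2 k3
            | @step a b d k1 k2 k3 _ _ ih =>
              exact Blk.step (sub_erase_le T S l k1) (sub_erase_le T S l k2) k3 ih
          exact this _ _ h5
        exact h4 (hess z x h7 h1)
    · -- only `x` blocks `y` after the removal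
      intro a b ha hb'
      have : ∀ w, Blk (sub T (S.erase l)) c y w → w = x := by
        intro w hw
        by_contra hne
        exact hy.not_blk (Blk.step hy.adj hw.adj hne hw)
      rw [this a ha, this b hb']
  choose! f hf1 hf2 hf3 using key
  refine card_le_card_of_injOn f (fun x hx => hf1 x hx) ?_
  intro a ha b hb hab
  by_contra hne
  have h1 := hf2 a ha
  have h2 := hf3 b hb
  rw [← hab] at h2
  exact h1.not_blk (Blk.step h1.adj h2.adj (Ne.symm hne) h2)

end leaf

end Pool.Agent.Q271.LG
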